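import Pool.Agent.helper14.AU.Spec

/-!
# Module au:FS
-/

set_option autoImplicit false

namespace Pool.Agent.helper14.AU

open N68a2faeb N793a5b8e Pool.Agent.helper56.SGE Pool.Agent.helper56.SGE.QSys
  Pool.Agent.helper98.Tsei Pool.Agent.H54.PT

/-- the first equations -/
theorem FS_sat {tok : ℕ → ℕ} {L : ℕ} {u : ℕ → ℝ}
    (H : ∀ k < 8 * L + L * L + 1, rval u (lref tok L k 0) * rval u (lref tok L k 1) +
      rval u (lref tok L k 2) - rval u (lref tok L k 3) = 0) : AllSat u tok L := by
  refine ⟨fun i hi e he => ?_, fun i hi i' hi' hs => ?_, ?_⟩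
  · have h1 := H (8 * i + e) (by
      have : 0 ≤ L * L := Nat.zero_le _
      omega)
    have e1 : (8 * i + e) / 8 = i := by omega
    have e2 : (8 * i + e) % 8 = e := by omega
    simp only [lref, e1, e2, if_pos (by omega : 8 * i + e < 8 * L)] at h1
    exact h1
  · have hb : i * L + i' < L * L := by nlinarith
    have h1 := H (8 * L + (i * L + i')) (by omega)
    simp only [lref_pair hi hi' hs] at h1
    norm_num [rval] at h1
    linarith
  · have h1 := H (8 * L + L * L) (by omega)
    simp only [lref, if_neg (by omega : ¬ 8 * L + L * L < 8 * L),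
      if_neg (by omega : ¬ 8 * L + L * L < 8 * L + L * L)] at h1
    norm_num [rval] at h1
    exact h1

/-- the extra equations -/
theorem FS_ext {w : List Bool} (hG : Good w) {z : ℕ → ℝ}
    (hz : ∀ k < (sysU w).m, (sysU w).E z k = 0) {i : ℕ} (hi : i < len w) {e : ℕ} (he : e < 12) :
    rval z (prefU (len w) i (descU e 0)) * rval z (prefU (len w) i (descU e 1)) +
      rval z (prefU (len w) i (descU e 2)) - rval z (prefU (len w) i (descU e 3)) = 0 := by
  have hsys : sysU w = ⟨32 * len w, mU (len w) + 12 * len w, fun k c =>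
      if k < mU (len w) then lref (tokw w) (len w) k c
      else prefU (len w) ((k - mU (len w)) / 12) (descU ((k - mU (len w)) % 12) c)⟩ := by
    unfold sysU
    rw [if_pos hG]
  rw [hsys] at hz
  have h := hz (mU (len w) + (12 * i + e)) (by
    show mU (len w) + (12 * i + e) < mU (len w) + 12 * len w
    omega)
  unfold QSys.E at h
  have e1 : mU (len w) + (12 * i + e) - mU (len w) = 12 * i + e := by omega
  have e2 : (12 * i + e) / 12 = i := by omega
  have e3 : (12 * i + e) % 12 = e := by omega
  simp only [e1, e2, e3, if_neg (by omega : ¬ mU (len w) + (12 * i + e) < mU (len w))] at h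
  exact h

/-- the computation at one position -/
theorem FS_alg (x t t' s s' a b a2 b2 a4 b4 d f g X q κ : ℝ) (hq : 0 < q) (hqx : x * q = q ^ 2 - 1)
    (hκ : 0 < κ) (h0 : t + s = 1) (h1 : t' + s' = 1) (h2 : t * s' = a) (h3 : t' * s = b)
    (h4 : a * a = a2) (h5 : b * b = b2) (h6 : a2 * a2 = a4) (h7 : b2 * b2 = b4) (h8 : a2 * b2 = d)
    (h9 : X * d + b4 = f) (h10 : d * f = g) (h11 : d * a4 = g)
    (hm : |t| * κ = |1 - t| * Real.sqrt q) (hm' : |t'| * κ = |1 - t'|) : X = x := by
  have hs : s = 1 - t := by linarith
  have hs' : s' = 1 - t' := by linarith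
  have hb0 : b ≠ 0 := by
    rw [← h3, hs]
    refine mul_ne_zero ?_ ?_
    · intro h
      rw [h] at hm'
      norm_num at hm'
    · intro h
      rw [h] at hm
      have ht : t = 1 := by linarith
      rw [ht] at hm
      simp at hm
      exact hκ.ne' hm
  have hab : |a| = Real.sqrt q * |b| := by
    rw [← h2, ← h3, hs, hs', abs_mul, abs_mul, ← hm']
    calc |t| * (|t'| * κ) = |t'| * (|t| * κ) := by ring
      _ = |t'| * (|1 - t| * Real.sqrt q) := by rw [hm]
      _ = Real.sqrt q * (|t'| * |1 - t|) := by ring
  have ha2 : a ^ 2 = q * b ^ 2 := by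
    rw [← sq_abs a, hab, mul_pow, Real.sq_sqrt hq.le, sq_abs]
  have hb2 : 0 < b ^ 2 := by positivity
  have hd : d = q * (b ^ 2) ^ 2 := by
    rw [← h8, ← h4, ← h5]
    linear_combination (b ^ 2) * ha2
  have hd0 : d ≠ 0 := by
    rw [hd]
    positivity
  have hf : f = a4 := mul_left_cancel₀ hd0 (h10.trans h11.symm)
  have ha4 : a4 = q ^ 2 * (b ^ 2) ^ 2 := by
    rw [← h6, ← h4]
    linear_combination (a ^ 2 + q * b ^ 2) * ha2
  have hb4 : b4 = (b ^ 2) ^ 2 := by
    rw [← h7, ← h5]
    ring
  have hX : X * (q * (b ^ 2) ^ 2) = x * (q * (b ^ 2) ^ 2) := by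
    rw [hf, ha4, hd, hb4] at h9
    linear_combination h9 - (b ^ 2) ^ 2 * hqx
  have hne : q * (b ^ 2) ^ 2 ≠ 0 := by positivity
  exact mul_right_cancel₀ hne hX

/-- the positive root -/
theorem FS_q (x : ℝ) : 0 < (x + Real.sqrt (x ^ 2 + 4)) / 2 ∧
    x * ((x + Real.sqrt (x ^ 2 + 4)) / 2) = ((x + Real.sqrt (x ^ 2 + 4)) / 2) ^ 2 - 1 := by
  have h1 : Real.sqrt (x ^ 2 + 4) ^ 2 = x ^ 2 + 4 := Real.sq_sqrt (by positivity)
  have h2 : |x| < Real.sqrt (x ^ 2 + 4) := by
    rw [← Real.sqrt_sq_eq_abs]
    exact Real.sqrt_lt_sqrt (by positivity) (by linarith)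
  have h3 := neg_abs_le x
  constructor
  · linarith
  · linear_combination (-1 / 4 : ℝ) * h1

theorem FS (hE : E1_stmt) : FS_stmt := by
  intro w H
  by_cases hG : Good w
  · rw [hE]
    refine ⟨hG, fun x => ?_⟩
    obtain ⟨q, hq⟩ : ∃ q : ℕ → ℝ, ∀ i, 0 < q i ∧ x i * q i = q i ^ 2 - 1 :=
      ⟨fun i => (x i + Real.sqrt (x i ^ 2 + 4)) / 2, fun i => FS_q (x i)⟩
    obtain ⟨z, κ, hκ, hz, hM⟩ := H
      (fun r => if (r - 16 * len w) % 16 = 2 then Real.sqrt (q ((r - 16 * len w) / 16)) else 1)
      (fun _ => 1) (fun r => by
        refine ⟨?_, one_pos⟩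
        show 0 < (if (r - 16 * len w) % 16 = 2 then Real.sqrt (q ((r - 16 * len w) / 16)) else 1)
        split_ifs
        · exact Real.sqrt_pos.2 (hq _).1
        · exact one_pos)
    have hsys : sysU w = ⟨32 * len w, mU (len w) + 12 * len w, fun k c =>
        if k < mU (len w) then lref (tokw w) (len w) k c
        else prefU (len w) ((k - mU (len w)) / 12) (descU ((k - mU (len w)) % 12) c)⟩ := by
      unfold sysU
      rw [if_pos hG]
    refine ⟨z, FS_sat fun k hk => ?_, fun i hi hR => ?_⟩
    · have hk' : k < mU (len w) := hk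
      rw [hsys] at hz
      have h := hz k (by
        show k < mU (len w) + 12 * len w
        omega)
      unfold QSys.E at h
      simp only [if_pos hk'] at h
      exact h
    · have g0 := FS_ext hG hz hi (e := 0) (by norm_num)
      have g1 := FS_ext hG hz hi (e := 1) (by norm_num)
      have g2 := FS_ext hG hz hi (e := 2) (by norm_num)
      have g3 := FS_ext hG hz hi (e := 3) (by norm_num)
      have g4 := FS_ext hG hz hi (e := 4) (by norm_num)
      have g5 := FS_ext hG hz hi (e := 5) (by norm_num)
      have g6 := FS_ext hG hz hi (e := 6) (by norm_num)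
      have g7 := FS_ext hG hz hi (e := 7) (by norm_num)
      have g8 := FS_ext hG hz hi (e := 8) (by norm_num)
      have g9 := FS_ext hG hz hi (e := 9) (by norm_num)
      have g10 := FS_ext hG hz hi (e := 10) (by norm_num)
      have g11 := FS_ext hG hz hi (e := 11) (by norm_num)
      have m0 := hM (16 * len w + 16 * i + 2) ⟨hG, i, hi, hR, Or.inl rfl⟩
      have m1 := hM (16 * len w + 16 * i + 3) ⟨hG, i, hi, hR, Or.inr rfl⟩
      have k0 : (16 * len w + 16 * i + 2 - 16 * len w) % 16 = 2 := by omega
      have k1 : (16 * len w + 16 * i + 2 - 16 * len w) / 16 = i := by omega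
      have k2 : ¬ (16 * len w + 16 * i + 3 - 16 * len w) % 16 = 2 := by omega
      simp only [if_pos k0, k1] at m0
      simp only [if_neg k2] at m1
      have r0 : rval z (16 * len w + 16 * i + 2) = z (16 * len w + 16 * i) := rfl
      have r1 : rval z (16 * len w + 16 * i + 3) = z (16 * len w + 16 * i + 1) := rfl
      rw [r0, mul_one] at m0
      rw [r1, mul_one, mul_one] at m1
      have dd : ∀ e c, descU e c = (tabU.getD e []).getD c 0 := fun _ _ => rfl
      have q1 : rval z (prefU (len w) i 0) = 0 := rfl
      have q2 : rval z (prefU (len w) i 1) = 1 := rfl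
      have q3 : rval z (prefU (len w) i 2) = z (16 * i) := rfl
      have qc : ∀ c, rval z (prefU (len w) i (3 + c)) = z (16 * len w + 16 * i + c) := by
        intro c
        unfold prefU
        rw [if_neg (by omega), if_neg (by omega)]
        have : 3 + c - 3 = c := by omega
        rw [this]
        rfl
      have c3 := qc 0
      have c4 := qc 1
      have c5 := qc 2
      have c6 := qc 3
      have c7 := qc 4
      have c8 := qc 5
      have c9 := qc 6
      have c10 := qc 7
      have c11 := qc 8
      have c12 := qc 9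
      have c13 := qc 10
      have c14 := qc 11
      have c15 := qc 12
      norm_num only at c3 c4 c5 c6 c7 c8 c9 c10 c11 c12 c13 c14 c15
      change rval z (prefU (len w) i 1) * rval z (prefU (len w) i 3) +
        rval z (prefU (len w) i 5) - rval z (prefU (len w) i 1) = 0 at g0
      change rval z (prefU (len w) i 1) * rval z (prefU (len w) i 4) +
        rval z (prefU (len w) i 6) - rval z (prefU (len w) i 1) = 0 at g1
      change rval z (prefU (len w) i 3) * rval z (prefU (len w) i 6) +
        rval z (prefU (len w) i 0) - rval z (prefU (len w) i 7) = 0 at g2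
      change rval z (prefU (len w) i 4) * rval z (prefU (len w) i 5) +
        rval z (prefU (len w) i 0) - rval z (prefU (len w) i 8) = 0 at g3
      change rval z (prefU (len w) i 7) * rval z (prefU (len w) i 7) +
        rval z (prefU (len w) i 0) - rval z (prefU (len w) i 9) = 0 at g4
      change rval z (prefU (len w) i 8) * rval z (prefU (len w) i 8) +
        rval z (prefU (len w) i 0) - rval z (prefU (len w) i 10) = 0 at g5
      change rval z (prefU (len w) i 9) * rval z (prefU (len w) i 9) +
        rval z (prefU (len w) i 0) - rval z (prefU (len w) i 11) = 0 at g6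
      change rval z (prefU (len w) i 10) * rval z (prefU (len w) i 10) +
        rval z (prefU (len w) i 0) - rval z (prefU (len w) i 12) = 0 at g7
      change rval z (prefU (len w) i 9) * rval z (prefU (len w) i 10) +
        rval z (prefU (len w) i 0) - rval z (prefU (len w) i 13) = 0 at g8
      change rval z (prefU (len w) i 2) * rval z (prefU (len w) i 13) +
        rval z (prefU (len w) i 12) - rval z (prefU (len w) i 14) = 0 at g9
      change rval z (prefU (len w) i 13) * rval z (prefU (len w) i 14) +
        rval z (prefU (len w) i 0) - rval z (prefU (len w) i 15) = 0 at g10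
      change rval z (prefU (len w) i 13) * rval z (prefU (len w) i 11) +
        rval z (prefU (len w) i 0) - rval z (prefU (len w) i 15) = 0 at g11
      rw [← q3]
      refine FS_alg (x i) (rval z (prefU (len w) i 3)) (rval z (prefU (len w) i 4))
        (rval z (prefU (len w) i 5)) (rval z (prefU (len w) i 6)) (rval z (prefU (len w) i 7))
        (rval z (prefU (len w) i 8)) (rval z (prefU (len w) i 9)) (rval z (prefU (len w) i 10))
        (rval z (prefU (len w) i 11)) (rval z (prefU (len w) i 12)) (rval z (prefU (len w) i 13))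
        (rval z (prefU (len w) i 14)) (rval z (prefU (len w) i 15)) _ (q i) κ (hq i).1 (hq i).2 hκ
        ?_ ?_ ?_ ?_ ?_ ?_ ?_ ?_ ?_ ?_ ?_ ?_ ?_ ?_
      · linear_combination g0 + (1 - rval z (prefU (len w) i 3)) * q2
      · linear_combination g1 + (1 - rval z (prefU (len w) i 4)) * q2
      · linear_combination g2 - q1
      · linear_combination g3 - q1
      · linear_combination g4 - q1
      · linear_combination g5 - q1
      · linear_combination g6 - q1
      · linear_combination g7 - q1
      · linear_combination g8 - q1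
      · linear_combination g9
      · linear_combination g10 - q1
      · linear_combination g11 - q1
      · rw [c3]
        exact m0
      · rw [c4]
        exact m1
  · exfalso
    obtain ⟨z, κ, hκ, hz, hM⟩ := H (fun _ => 1) (fun _ => 1) (fun _ => ⟨one_pos, one_pos⟩)
    have hsys : sysU w = ⟨0, 1, fun _ c => if c ≤ 1 then 1 else 0⟩ := by
      unfold sysU
      rw [if_neg hG]
    rw [hsys] at hz
    have h := hz 0 (by norm_num)
    norm_num [QSys.E, rval] at h

end Pool.Agent.helper14.AU
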