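import Pool.Agent.helper87.AU.SpecQ2

/-!
# Project au (MP_97532f_ag), module QF2: the character `theta`
-/

namespace Pool.Agent.helper53.AU

open scoped Classical IntermediateField

/-- natural powers of elements close to a constant -/
theorem QF2_pow {k F : Type} [Field k] [Field F] [Algebra k F] (P : Place k F) (u : F) (c : k)
    (hu : P.Ge 0 u) (h : P.Ge 1 (u - algebraMap k F c)) (n : ℕ) :
    P.Ge 1 (u ^ n - algebraMap k F c ^ n) := by
  induction n with
  | zero => simpa using P.ge_zero 1
  | succ n ih =>
    have e : u ^ (n + 1) - algebraMap k F c ^ (n + 1) =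
        u ^ n * (u - algebraMap k F c) + algebraMap k F c * (u ^ n - algebraMap k F c ^ n) := by
      ring
    rw [e]
    refine Place.Ge.add ?_ (ih.const_mul c)
    have h1 := (hu.pow n).mul h
    simpa using h1

/-- integral powers of elements close to a nonzero constant -/
theorem QF2_zpow {k F : Type} [Field k] [Field F] [Algebra k F] (P : Place k F) (u : F) (c : k)
    (hc : c ≠ 0) (hu0 : u ≠ 0) (hu : P.ord u = 0) (h : P.Ge 1 (u - algebraMap k F c)) (m : ℤ) :
    P.Ge 1 (u ^ m - algebraMap k F c ^ m) := by
  have hc' : algebraMap k F c ≠ 0 := by simpa using hc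
  have huge : P.Ge 0 u := Or.inr (by rw [hu])
  cases m with
  | ofNat n => simpa using QF2_pow P u c huge h n
  | negSucc n =>
    rw [zpow_negSucc, zpow_negSucc]
    set N := n + 1
    have hn := QF2_pow P u c huge h N
    have e : (u ^ N)⁻¹ - (algebraMap k F c ^ N)⁻¹ =
        (-(u ^ N)⁻¹ * (algebraMap k F c ^ N)⁻¹) * (u ^ N - algebraMap k F c ^ N) := by
      field_simp
      ring
    rw [e]
    have h1 : P.Ge 0 (-(u ^ N)⁻¹ * (algebraMap k F c ^ N)⁻¹) := by
      right
      rw [P.ord_mul _ _ (neg_ne_zero.mpr (inv_ne_zero (pow_ne_zero _ hu0)))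
        (inv_ne_zero (pow_ne_zero _ hc')), P.ord_neg, P.ord_inv (pow_ne_zero _ hu0),
        P.ord_inv (pow_ne_zero _ hc'), P.ord_pow hu0, P.ord_pow hc', hu, P.ord_const c hc]
      simp
    simpa using h1.mul hn

/-- a multiple of the uniformiser by a constant is in `Ge 2` only if the constant is `0` -/
theorem QF2_const {k F : Type} [Field k] [Field F] [Algebra k F] (P : Place k F) (c : k)
    (h : P.Ge 2 (algebraMap k F c * P.unif)) : c = 0 := by
  by_contra hc
  have ht := P.unif_spec
  have hc' : algebraMap k F c ≠ 0 := by simpa using hc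
  have h1 := h.le (mul_ne_zero hc' ht.1)
  rw [P.ord_mul _ _ hc' ht.1, P.ord_const c hc, ht.2] at h1
  omega

theorem QF2 (h1 : QV1_stmt) (hF1 : QF1_stmt) : QF2_stmt := by
  intro k F _ _ _ _ hF P s hs
  have ht := P.unif_spec
  set t := P.unif with htdef
  have hst0 : s t ≠ 0 := by
    intro h
    exact ht.1 ((map_eq_zero s).mp h)
  have hst : P.ord (s t) = 1 := by rw [ord_apply_of_smul_eq hs, ht.2]
  have hu0 : s t / t ≠ 0 := div_ne_zero hst0 ht.1
  have hu : P.ord (s t / t) = 0 := by rw [P.ord_div hst0 ht.1, hst, ht.2]; rfl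
  have hex : ∃ c : k, P.Ge 2 (s P.unif - algebraMap k F c * P.unif) := by
    obtain ⟨c, hc⟩ := h1 k F hF P (s t / t) (Or.inr (by rw [hu]))
    refine ⟨c, ?_⟩
    have e : s t - algebraMap k F c * t = t * (s t / t - algebraMap k F c) := by
      field_simp [ht.1]
    rw [← htdef, e]
    have h2 : P.Ge 1 t := Or.inr (by rw [ht.2])
    simpa using h2.mul hc
  have hth : P.Ge 2 (s t - algebraMap k F (P.theta s) * t) := by
    have : P.theta s = hex.choose := by
      unfold Place.theta
      rw [dif_pos hex]
    rw [this]
    exact hex.choose_spec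
  have hiff : ∀ c : k, P.Ge 2 (s t - algebraMap k F c * t) ↔ c = P.theta s := by
    intro c
    constructor
    · intro hc
      have h3 := hc.sub hth
      have e : s t - algebraMap k F c * t - (s t - algebraMap k F (P.theta s) * t) =
          algebraMap k F (P.theta s - c) * t := by
        rw [map_sub]; ring
      rw [e] at h3
      have h4 := QF2_const P _ h3
      exact (sub_eq_zero.mp h4).symm
    · rintro rfl
      exact hth
  have hne : P.theta s ≠ 0 := by
    intro h0
    rw [h0, map_zero, zero_mul, sub_zero] at hth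
    have h3 := hth.le hst0
    omega
  have hclose : P.Ge 1 (s t / t - algebraMap k F (P.theta s)) := by
    have e : s t / t - algebraMap k F (P.theta s) =
        t⁻¹ * (s t - algebraMap k F (P.theta s) * t) := by
      field_simp [ht.1]
    rw [e]
    have h2 : P.Ge (-1) t⁻¹ := Or.inr (by rw [P.ord_inv ht.1, ht.2])
    simpa using h2.mul hth
  refine ⟨hne, hiff, ?_, ?_⟩
  · intro m b f hf
    have hz := QF2_zpow P (s t / t) (P.theta s) hne hu0 hu hclose m
    have e : s f - algebraMap k F (b * P.theta s ^ m) * t ^ m =
        s (f - algebraMap k F b * t ^ m) +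
          algebraMap k F b * (t ^ m * ((s t / t) ^ m - algebraMap k F (P.theta s) ^ m)) := by
      have hsb : s (algebraMap k F b * t ^ m) = algebraMap k F b * (s t) ^ m := by
        rw [map_mul, AlgEquiv.commutes, map_zpow₀]
      have hk : algebraMap k F (b * P.theta s ^ m) =
          algebraMap k F b * algebraMap k F (P.theta s) ^ m := by
        rw [map_mul, map_zpow₀]
      rw [map_sub, hsb, hk, div_zpow]
      have := zpow_ne_zero m ht.1
      field_simp
      ring
    rw [e]
    refine Place.Ge.add ?_ (Place.Ge.const_mul b ?_)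
    · exact (ge_apply_of_smul_eq hs _ _).mpr hf
    · have h2 : P.Ge m (t ^ m) := Or.inr (by rw [P.ord_zpow ht.1, ht.2, mul_one])
      exact h2.mul hz
  · have h5 : P.theta s = 1 ↔ P.Ge 2 (s t - t) := by
      have := hiff 1
      rw [map_one, one_mul] at this
      rw [this]
      exact eq_comm
    rw [h5]
    constructor
    · intro h6
      by_cases hs1 : s = 1
      · exact Or.inl hs1
      · right
        obtain ⟨h7, h8⟩ := (hF1 k F hF P s hs hs1).1 t ht
        have h9 := h6.le h7
        rw [h8] at h9
        omega
    · rintro (rfl | h6)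
      · left; simp
      · right
        have : (P.ord (s t - t) - 1).toNat = P.jump s := rfl
        omega

end Pool.Agent.helper53.AU
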