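import Pool.Agent.helper87.AU.SpecQ1

/-!
# Project au (MP_97532f_ag), module QK3: `D x ≠ 0` if and only if `x` is separating
-/

namespace Pool.Agent.helper53.AU

open scoped Classical IntermediateField
open Polynomial (aeval)

/-- a derivation vanishing at `x` vanishes on `k(x)` -/
theorem QK3_van {k F : Type} [Field k] [Field F] [Algebra k F] (D : Derivation k F F) (x : F)
    (hx : D x = 0) : ∀ a ∈ k⟮x⟯, D a = 0 := by
  intro a ha
  induction ha using IntermediateField.adjoin_induction with
  | mem y hy =>
    rw [Set.mem_singleton_iff] at hy
    rw [hy, hx]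
  | algebraMap c => exact D.map_algebraMap c
  | add y z _ _ hy hz => rw [map_add, hy, hz, add_zero]
  | inv y _ hy =>
    rw [D.leibniz_inv, hy, smul_zero]
  | mul y z _ _ hy hz => rw [D.leibniz, hy, hz, smul_zero, smul_zero, add_zero]

/-- a derivation vanishing at `x` is a `k(x)`-linear derivation -/
noncomputable def QK3_lift {k F : Type} [Field k] [Field F] [Algebra k F] (D : Derivation k F F)
    (x : F) (hx : D x = 0) : Derivation k⟮x⟯ F F :=
  Derivation.mk'
    { toFun := D
      map_add' := fun a b => D.map_add a b
      map_smul' := fun c a => by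
        have h : c • a = (c : F) * a := rfl
        rw [h, D.leibniz, QK3_van D x hx c c.2, smul_zero, add_zero]
        rfl } (fun a b => D.leibniz a b)

theorem QK3_lift_apply {k F : Type} [Field k] [Field F] [Algebra k F] (D : Derivation k F F)
    (x : F) (hx : D x = 0) (a : F) : QK3_lift D x hx a = D a := rfl

theorem QK3 (h0 : QL0_stmt) (h2 : QK2_stmt) : QK3_stmt := by
  intro k F _ _ _ _ hF D hD x
  constructor
  · intro hx
    have htr : Transcendental k x := by
      intro halg
      apply hx
      have h1 : IsIntegral k x := halg.isIntegral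
      have h2 : (minpoly k x).degree = 1 :=
        IsAlgClosed.degree_eq_one_of_irreducible k (minpoly.irreducible h1)
      obtain ⟨c, hc⟩ := minpoly.mem_range_of_degree_eq_one k x h2
      rw [← hc]
      exact D.map_algebraMap c
    have hfin : FiniteDimensional k⟮x⟯ F := h0 k F hF x htr
    have hzero : ∀ E : Derivation k⟮x⟯ F F, E = 0 := by
      intro E
      obtain ⟨c, hc⟩ := h2 k F hF D (E.restrictScalars k) hD
      have h3 : E x = 0 := by
        have := E.map_algebraMap ⟨x, IntermediateField.mem_adjoin_simple_self k x⟩
        exact this
      have h4 : c * D x = 0 := by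
        have := congrArg (fun E' : Derivation k F F => E' x) hc
        simp only [Derivation.restrictScalars_apply, Derivation.smul_apply, smul_eq_mul] at this
        rw [← this, h3]
      have h5 : c = 0 := (mul_eq_zero.mp h4).resolve_right hx
      ext a
      have := congrArg (fun E' : Derivation k F F => E' a) hc
      simp only [Derivation.restrictScalars_apply, Derivation.smul_apply, smul_eq_mul] at this
      rw [this, h5]
      simp
    have hsub : Subsingleton (Ω[F⁄k⟮x⟯]) := by
      refine subsingleton_of_forall_eq 0 fun w => ?_
      rw [← Module.forall_dual_apply_eq_zero_iff F]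
      intro f
      have h6 := hzero ((KaehlerDifferential.linearMapEquivDerivation k⟮x⟯ F) f)
      have h7 : f = 0 := by
        apply (KaehlerDifferential.linearMapEquivDerivation k⟮x⟯ F).injective
        rw [h6, map_zero]
      rw [h7]
      rfl
    have hfu : Algebra.FormallyUnramified k⟮x⟯ F := ⟨hsub⟩
    exact ⟨htr, hfin, Algebra.FormallyUnramified.isSeparable k⟮x⟯ F⟩
  · intro hs hx
    apply hD
    have : Algebra.IsSeparable k⟮x⟯ F := hs.2.2
    have := Algebra.FormallyUnramified.of_isSeparable k⟮x⟯ F
    have hsub : Subsingleton (Ω[F⁄k⟮x⟯]) := inferInstance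
    have h1 : QK3_lift D x hx = 0 := by
      have h8 := (QK3_lift D x hx).liftKaehlerDifferential_comp
      rw [← h8]
      have h9 : (QK3_lift D x hx).liftKaehlerDifferential = 0 := by
        refine LinearMap.ext fun w => ?_
        rw [Subsingleton.elim w 0, map_zero, map_zero]
      rw [h9]
      ext a
      simp
    ext a
    rw [← QK3_lift_apply D x hx a, h1]
    rfl

end Pool.Agent.helper53.AU
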