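import Pool.Agent.helper75.AU.SpecR

/-!
# Project au, module II1: no nontrivial subgroup of `⟨c⟩` is normal in `Gam`
-/

namespace Pool.Agent.helper75.AU

open scoped Classical
open Pool.Agent.helper53.AU MulAction

/-- in a cyclic group, an element killed by the prime `r` lies in the group generated by an element of
order `r` -/
theorem II1_mem {W : Type} [Group W] {c z w : W} {r m : ℕ} (hr : r.Prime)
    (hc : orderOf c = r * m) (hz : z ∈ Subgroup.zpowers c) (hw : w ∈ Subgroup.zpowers c)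
    (hzr : z ^ r = 1) (hwr : w ^ r = 1) (hz1 : z ≠ 1) : w ∈ Subgroup.zpowers z := by
  obtain ⟨a, rfl⟩ := Subgroup.mem_zpowers_iff.1 hz
  obtain ⟨b, rfl⟩ := Subgroup.mem_zpowers_iff.1 hw
  have hr0 : (r : ℤ) ≠ 0 := by exact_mod_cast hr.ne_zero
  have key : ∀ t : ℤ, (c ^ t) ^ r = 1 → (m : ℤ) ∣ t := by
    intro t ht
    rw [← zpow_natCast, ← zpow_mul, ← orderOf_dvd_iff_zpow_eq_one, hc] at ht
    push_cast at ht
    rw [mul_comm t] at ht
    exact (mul_dvd_mul_iff_left hr0).1 ht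
  obtain ⟨a', rfl⟩ := key a hzr
  obtain ⟨b', rfl⟩ := key b hwr
  have hnd : ¬ (r : ℤ) ∣ a' := by
    intro hd
    apply hz1
    rw [← orderOf_dvd_iff_zpow_eq_one, hc]
    push_cast
    rw [mul_comm (r : ℤ)]
    exact mul_dvd_mul_left _ hd
  have hcop : IsCoprime a' (r : ℤ) := by
    have h1 : Prime (r : ℤ) := Nat.prime_iff_prime_int.1 hr
    exact ((h1.irreducible.coprime_iff_not_dvd).2 hnd).symm
  obtain ⟨u, v, huv⟩ := hcop
  rw [Subgroup.mem_zpowers_iff]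
  refine ⟨u * b', ?_⟩
  have h1 : (m : ℤ) * b' = (m : ℤ) * a' * (u * b') + (((r * m : ℕ) : ℤ)) * (v * b') := by
    push_cast
    linear_combination (-(m : ℤ) * b') * huv
  rw [← zpow_mul]
  conv_rhs => rw [h1, zpow_add]
  have h2 : c ^ ((((r * m : ℕ) : ℤ)) * (v * b')) = 1 := by
    rw [← orderOf_dvd_iff_zpow_eq_one, hc]
    exact Dvd.intro _ rfl
  rw [h2, mul_one]

/-- an abelianization generated by elements of 3-power order is a 3-group -/
theorem II1_three {Gam : Type} [Group Gam] (L : Subgroup Gam)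
    (gen3 : Subgroup.closure {x : Gam | x ∈ L ∧ ∃ n : ℕ, x ^ (3 ^ n) = 1} = L) (z : Gam) (hz : z ∈ L) :
    ∃ n : ℕ, (Abelianization.of (⟨z, hz⟩ : L)) ^ (3 ^ n) = 1 := by
  have hz' : z ∈ Subgroup.closure {x : Gam | x ∈ L ∧ ∃ n : ℕ, x ^ (3 ^ n) = 1} := by
    rw [gen3]; exact hz
  have hP : ∃ h : z ∈ L, ∃ n : ℕ, (Abelianization.of (⟨z, h⟩ : L)) ^ (3 ^ n) = 1 := by
    refine Subgroup.closure_induction (p := fun x _ => ∃ h : x ∈ L, ∃ n : ℕ,
      (Abelianization.of (⟨x, h⟩ : L)) ^ (3 ^ n) = 1) ?_ ?_ ?_ ?_ hz'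
    · rintro x ⟨hx, n, hn⟩
      refine ⟨hx, n, ?_⟩
      rw [← map_pow]
      have : (⟨x, hx⟩ : L) ^ (3 ^ n) = 1 := Subtype.ext (by simpa using hn)
      rw [this, map_one]
    · refine ⟨L.one_mem, 0, ?_⟩
      have : (⟨1, L.one_mem⟩ : L) = 1 := rfl
      rw [this, map_one, one_pow]
    · rintro x y _ _ ⟨hx, n, hn⟩ ⟨hy, m, hm⟩
      refine ⟨L.mul_mem hx hy, n + m, ?_⟩
      have : (⟨x * y, L.mul_mem hx hy⟩ : L) = ⟨x, hx⟩ * ⟨y, hy⟩ := rfl
      rw [this, map_mul, mul_pow, pow_add, pow_mul, hn, one_pow, one_mul, mul_comm (3 ^ n), pow_mul,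
        hm, one_pow]
    · rintro x _ ⟨hx, n, hn⟩
      refine ⟨L.inv_mem hx, n, ?_⟩
      have : (⟨x⁻¹, L.inv_mem hx⟩ : L) = (⟨x, hx⟩ : L)⁻¹ := rfl
      rw [this, map_inv, inv_pow, hn, inv_one]
  exact hP.2

/-- II1: (8.1). No nontrivial subgroup of `⟨c⟩` is normal in `Gam`. -/
theorem II1 (hTR : TR_stmt) : II1_stmt := by
  intro Gam Om _ _ L c h Z hZc hZn
  have := h.finG
  have := h.finO
  have := h.faithful
  -- `⟨c⟩` is regular
  obtain ⟨a0⟩ : Nonempty Om := by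
    have := h.one
    by_contra hne
    rw [not_nonempty_iff] at hne
    rw [Nat.card_of_isEmpty] at this
    omega
  have hreg : ∀ g ∈ Subgroup.zpowers c, ∀ a : Om, g • a = a → g = 1 := by
    intro g hg a ha
    obtain ⟨k, rfl⟩ := Subgroup.mem_zpowers_iff.1 hg
    apply FaithfulSMul.eq_of_smul_eq_smul (α := Om)
    intro b
    obtain ⟨n, rfl⟩ := h.tr a b
    rw [one_smul, smul_smul, ← zpow_natCast, ← zpow_add, add_comm, zpow_add, ← smul_smul, ha]
  have hcard : Nat.card (Subgroup.zpowers c) = Nat.card Om := by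
    apply Nat.card_congr
    refine Equiv.ofBijective (fun g : Subgroup.zpowers c => (g : Gam) • a0) ⟨?_, ?_⟩
    · intro g g' hgg
      have h1 : ((g' : Gam)⁻¹ * (g : Gam)) • a0 = a0 := by
        have h2 : (g : Gam) • a0 = (g' : Gam) • a0 := hgg
        rw [← smul_smul, h2, inv_smul_smul]
      have h3 := hreg _ (Subgroup.mul_mem _ (Subgroup.inv_mem _ g'.2) g.2) a0 h1
      exact Subtype.ext (inv_mul_eq_one.1 h3).symm
    · intro b
      obtain ⟨n, hn⟩ := h.tr a0 b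
      exact ⟨⟨c ^ n, Subgroup.npow_mem_zpowers c n⟩, hn⟩
  rw [Nat.card_zpowers] at hcard
  by_contra hne
  have h1 : Nat.card Z ≠ 1 := by
    intro h1
    exact hne (Subgroup.card_eq_one.1 h1)
  obtain ⟨r, hr, hrd⟩ := Nat.exists_prime_and_dvd h1
  have : Fact r.Prime := ⟨hr⟩
  have hrc : r ∣ orderOf c := by
    rw [← Nat.card_zpowers]
    exact hrd.trans (Subgroup.card_dvd_of_le hZc)
  have hr5 : 5 ≤ r := by
    have h2 : r ≠ 2 := by rintro rfl; exact h.odd (hcard ▸ hrc)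
    have h3 : r ≠ 3 := by rintro rfl; exact h.three (hcard ▸ hrc)
    have h4 : r ≠ 4 := by rintro rfl; norm_num at hr
    have := hr.two_le
    omega
  obtain ⟨m, hm⟩ := hrc
  obtain ⟨z', hz'⟩ := exists_prime_orderOf_dvd_card' (G := Z) r hrd
  set z : Gam := (z' : Gam) with hzdef
  have hzZ : z ∈ Z := z'.2
  have hzord : orderOf z = r := by rw [← hz', hzdef, Subgroup.orderOf_coe]
  have hz1 : z ≠ 1 := by
    intro h2
    rw [h2, orderOf_one] at hzord
    omega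
  have hzr : z ^ r = 1 := by rw [← hzord]; exact pow_orderOf_eq_one z
  -- conjugates of `z`
  have hconj : ∀ g : Gam, ∃ k : ℤ, g * z * g⁻¹ = z ^ k := by
    intro g
    have h2 : g * z * g⁻¹ ∈ Z := hZn.conj_mem z hzZ g
    have h3 : (g * z * g⁻¹) ^ r = 1 := by
      rw [conj_pow, hzr, mul_one, mul_inv_cancel]
    obtain ⟨k, hk⟩ := Subgroup.mem_zpowers_iff.1
      (II1_mem hr hm (hZc hzZ) (hZc h2) hzr h3 hz1)
    exact ⟨k, hk.symm⟩
  have hzpow : ∀ (g : Gam) (k j : ℤ), g * z * g⁻¹ = z ^ k → g * z ^ j * g⁻¹ = z ^ (k * j) := by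
    intro g k j hk
    rw [← conj_zpow, hk, zpow_mul]
  have hcent : ∀ g ∈ L, g * z = z * g := by
    have h2 : ⁅(⊤ : Subgroup Gam), L⁆ ≤ Subgroup.centralizer {z} := by
      rw [Subgroup.commutator_le]
      intro u _ v _
      rw [Subgroup.mem_centralizer_singleton_iff, commutatorElement_def]
      have e4 : u * v * u⁻¹ * v⁻¹ = (u * v) * (v * u)⁻¹ := by group
      rw [e4]
      -- use the commutation of `u⁻¹`, `v⁻¹` as well
      obtain ⟨i', hi'⟩ := hconj u⁻¹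
      obtain ⟨j', hj'⟩ := hconj v⁻¹
      have e8 : (u⁻¹ * v⁻¹) * z * (u⁻¹ * v⁻¹)⁻¹ = (v⁻¹ * u⁻¹) * z * (v⁻¹ * u⁻¹)⁻¹ := by
        have e2 : (u⁻¹ * v⁻¹) * z * (u⁻¹ * v⁻¹)⁻¹ = u⁻¹ * (v⁻¹ * z * v⁻¹⁻¹) * u⁻¹⁻¹ := by group
        have e3 : (v⁻¹ * u⁻¹) * z * (v⁻¹ * u⁻¹)⁻¹ = v⁻¹ * (u⁻¹ * z * u⁻¹⁻¹) * v⁻¹⁻¹ := by group
        rw [e2, e3, hi', hj', hzpow u⁻¹ i' j' hi', hzpow v⁻¹ j' i' hj', mul_comm]
      have e9 : (u * v) * (v * u)⁻¹ * z * ((u * v) * (v * u)⁻¹)⁻¹ = z := by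
        have e10 : (u * v) * (v * u)⁻¹ * z * ((u * v) * (v * u)⁻¹)⁻¹ =
            (u * v) * ((u⁻¹ * v⁻¹) * z * (u⁻¹ * v⁻¹)⁻¹) * (u * v)⁻¹ := by group
        rw [e10, e8]; group
      symm
      calc z * ((u * v) * (v * u)⁻¹) =
            ((u * v) * (v * u)⁻¹ * z * ((u * v) * (v * u)⁻¹)⁻¹) * ((u * v) * (v * u)⁻¹) := by
              rw [e9]
        _ = (u * v) * (v * u)⁻¹ * z := by group
    intro g hg
    rw [h.zp] at h2
    have h3 := h2 hg
    rw [Subgroup.mem_centralizer_singleton_iff] at h3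
    exact h3
  -- transfer in `L`
  have hzL : z ∈ L := by
    have h2 : Subgroup.zpowers c ≤ L := by
      rw [Subgroup.zpowers_le]; exact h.mem
    exact h2 (hZc hzZ)
  set y : L := ⟨z, hzL⟩ with hy
  have hyr : y ^ r = 1 := Subtype.ext (by simpa [hy] using hzr)
  have hyc : ∀ w : L, w * y = y * w := by
    intro w
    exact Subtype.ext (hcent w w.2)
  obtain ⟨n, hn⟩ := II1_three L h.gen3 z hzL
  have hycom : y ∈ ⁅(⊤ : Subgroup L), (⊤ : Subgroup L)⁆ := by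
    have h2 : Abelianization.of y = 1 := by
      have h3 : (Abelianization.of y) ^ r = 1 := by rw [← map_pow, hyr, map_one]
      have h4 : orderOf (Abelianization.of y) ∣ r := orderOf_dvd_of_pow_eq_one h3
      have h5 : orderOf (Abelianization.of y) ∣ 3 ^ n := orderOf_dvd_of_pow_eq_one hn
      have h6 : Nat.Coprime r (3 ^ n) := by
        apply Nat.Coprime.pow_right
        rw [Nat.coprime_primes hr Nat.prime_three]
        omega
      have h7 := Nat.dvd_gcd h4 h5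
      rw [h6] at h7
      exact orderOf_eq_one_iff.1 (Nat.dvd_one.1 h7)
    have h3 : y ∈ (Abelianization.of (G := L)).ker := h2
    rw [Abelianization.ker_of] at h3
    exact h3
  have hpg : IsPGroup r (Subgroup.zpowers y) := by
    intro w
    refine ⟨1, ?_⟩
    obtain ⟨w, hw⟩ := w
    obtain ⟨k, rfl⟩ := Subgroup.mem_zpowers_iff.1 hw
    apply Subtype.ext
    show (y ^ k) ^ (r ^ 1) = 1
    rw [pow_one, ← zpow_natCast, ← zpow_mul, mul_comm, zpow_mul, zpow_natCast, hyr, one_zpow]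
  obtain ⟨S, hS⟩ := hpg.exists_le_sylow
  have hyS : y ∈ (S : Subgroup L) := hS (Subgroup.mem_zpowers y)
  have h2 := hTR L r (S : Subgroup L) y hr S.isPGroup' S.not_dvd_index hyS hycom (by
    intro w n _
    have : w * y ^ n = y ^ n * w := by
      have hcw : Commute w y := hyc w
      exact (hcw.pow_right n).eq
    rw [this, mul_inv_cancel_right])
  -- `S` is abelian
  have hQ : IsCyclic ((S : Subgroup L).map L.subtype) :=
    h.cyc r hr hr5 _ (Subgroup.map_subtype_le _) (S.isPGroup'.map _)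
  have hab : ⁅(S : Subgroup L), (S : Subgroup L)⁆ = ⊥ := by
    rw [eq_bot_iff, Subgroup.commutator_le]
    intro s hs t ht
    obtain ⟨g, hg⟩ := hQ.exists_generator
    obtain ⟨i, hi⟩ := Subgroup.mem_zpowers_iff.1 (hg ⟨(s : Gam), ⟨s, hs, rfl⟩⟩)
    obtain ⟨j, hj⟩ := Subgroup.mem_zpowers_iff.1 (hg ⟨(t : Gam), ⟨t, ht, rfl⟩⟩)
    have hst : s * t = t * s := by
      apply Subtype.ext
      have h3 : (⟨(s : Gam), ⟨s, hs, rfl⟩⟩ : (S : Subgroup L).map L.subtype) *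
          ⟨(t : Gam), ⟨t, ht, rfl⟩⟩ = ⟨(t : Gam), ⟨t, ht, rfl⟩⟩ * ⟨(s : Gam), ⟨s, hs, rfl⟩⟩ := by
        rw [← hi, ← hj, ← zpow_add, ← zpow_add, add_comm]
      have h4 := congrArg (Subtype.val : ((S : Subgroup L).map L.subtype) → Gam) h3
      exact h4
    rw [Subgroup.mem_bot, commutatorElement_eq_one_iff_mul_comm]
    exact hst
  rw [hab, Subgroup.mem_bot] at h2
  exact hz1 (congrArg Subtype.val h2)

end Pool.Agent.helper75.AU
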