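import Pool.Agent.helper2.AU.SpecX

/-!
# Project au (MP_97532f_ag), module XO: the order of `f'(α)`
-/

namespace Pool.Agent.helper53.AU

open scoped Classical IntermediateField

/-- the order of a finite product of nonzero elements -/
theorem XO_prod {k F : Type} [Field k] [Field F] [Algebra k F] (P : Place k F) {ι : Type}
    (T : Finset ι) (f : ι → F) (h : ∀ i ∈ T, f i ≠ 0) :
    P.ord (∏ i ∈ T, f i) = ∑ i ∈ T, P.ord (f i) := by
  induction T using Finset.induction_on with
  | empty => simp [P.ord_one]
  | insert a T ha ih =>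
    rw [Finset.prod_insert ha, Finset.sum_insert ha,
      P.ord_mul _ _ (h a (Finset.mem_insert_self a T))
        (Finset.prod_ne_zero_iff.mpr fun i hi => h i (Finset.mem_insert_of_mem hi)),
      ih fun i hi => h i (Finset.mem_insert_of_mem hi)]

theorem XO (hJ : XJ_stmt) : XO_stmt := by
  intro k F _ _ _ _ hF H _ S α c hS hc hu P hP
  -- the two cases
  have key : ∀ s ∈ H, s ≠ 1 → s α ≠ α ∧
      P.ord (α - s α) = if s • P = P then P.jj s else 0 := by
    intro s hs hs1
    by_cases hfix : s • P = P
    · obtain ⟨h1, h2⟩ := (hJ k F hF P s hfix hs1).1 _ (hu P hP)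
      have e1 : s (α - algebraMap k F (c P)) = s α - algebraMap k F (c P) := by
        rw [map_sub, AlgEquiv.commutes]
      rw [e1] at h1 h2
      refine ⟨fun h => h1 (by rw [h]), ?_⟩
      rw [if_pos hfix, ← h2, ← P.ord_neg]
      congr 1
      ring
    · have hP' : s⁻¹ • P ∈ S := hS s⁻¹ (H.inv_mem hs) P hP
      have hsP' : s • (s⁻¹ • P) = P := smul_inv_smul s P
      have hne : P ≠ s⁻¹ • P := by
        intro h
        apply hfix
        conv_lhs => rw [h]
        exact hsP'
      have hcne : c P - c (s⁻¹ • P) ≠ 0 := by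
        intro h
        exact hne (hc hP hP' (sub_eq_zero.mp h))
      have hu1 := hu P hP
      have hu2 := hu _ hP'
      have h3 : P.ord (s α - algebraMap k F (c (s⁻¹ • P))) = 1 := by
        have h4 := Place.smul_ord_apply s (s⁻¹ • P) (α - algebraMap k F (c (s⁻¹ • P)))
        rw [hsP', hu2.2, map_sub, AlgEquiv.commutes] at h4
        exact h4
      have hc0 : algebraMap k F (c P - c (s⁻¹ • P)) ≠ 0 :=
        fun h => hcne ((map_eq_zero (algebraMap k F)).mp h)
      have h5 : P.Ge 1 ((α - algebraMap k F (c P)) - (s α - algebraMap k F (c (s⁻¹ • P)))) :=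
        Place.Ge.sub (Or.inr (by rw [hu1.2])) (Or.inr (by rw [h3]))
      have hord0 : P.ord (algebraMap k F (c P - c (s⁻¹ • P))) = 0 := P.ord_const _ hcne
      have h6 := Place.ord_add_eq (P := P) hc0
        (g := (α - algebraMap k F (c P)) - (s α - algebraMap k F (c (s⁻¹ • P))))
        (by rw [hord0]; simpa using h5)
      have e2 : algebraMap k F (c P - c (s⁻¹ • P)) +
          ((α - algebraMap k F (c P)) - (s α - algebraMap k F (c (s⁻¹ • P)))) = α - s α := by
        rw [map_sub]; ring
      rw [e2, hord0] at h6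
      refine ⟨fun h => h6.1 (by rw [h, sub_self]), ?_⟩
      rw [if_neg hfix, h6.2]
  refine ⟨fun s hs hs1 => (key s hs hs1).1, ?_⟩
  rw [XO_prod]
  · unfold dexp
    have e3 : ∀ s ∈ Finset.univ.filter (fun s : H => (s : F ≃ₐ[k] F) ≠ 1),
        P.ord (α - (s : F ≃ₐ[k] F) α) =
          if (s : F ≃ₐ[k] F) • P = P then P.jj (s : F ≃ₐ[k] F) else 0 := by
      intro s hs
      exact (key s s.2 (Finset.mem_filter.mp hs).2).2
    rw [Finset.sum_congr rfl e3, ← Finset.sum_filter, Finset.filter_filter]
  · intro s hs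
    have h7 := (key s s.2 (Finset.mem_filter.mp hs).2).1
    exact fun h => h7 (sub_eq_zero.mp h).symm

end Pool.Agent.helper53.AU
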